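import Pool.Agent.helper95.RF.SpecC3

/-!
# Row rg:GUA (MP_16912e_nt, real quadratic fields, stage 2): bad tuples, `l ∤ norm k`
-/

set_option autoImplicit false

namespace Pool.Agent.RF

open Finset NumberField Pool.Agent.helper3.FT

/-! ### algebra -/

theorem GUA_norm (z : OO) : z.norm = z.re * z.re + z.re * z.im - z.im * z.im := by
  rw [QuadraticAlgebra.norm_def]
  ring

theorem GUA_ns (z : OO) : ((z.norm : ℤ) : OO) = z * star z := by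
  have h := QuadraticAlgebra.algebraMap_norm_eq_mul_star z
  rwa [eq_intCast] at h

theorem GUA_cop {k g : OO} {c : ℤ} (h : IsCoprime k.norm (c * g.norm)) : IsCoprime k ((c : OO) * g) ∧ IsCoprime k (star g) := by
  obtain ⟨a, b, hab⟩ := h
  have h1 : ((a * k.norm + b * (c * g.norm) : ℤ) : OO) = 1 := by
    rw [hab]
    simp
  push_cast at h1
  rw [GUA_ns, GUA_ns] at h1
  exact ⟨⟨a * star k, b * star g, by linear_combination h1⟩, ⟨a * star k, b * c * g, by linear_combination h1⟩⟩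

theorem GUA_nmul (c : ℤ) (g : OO) : ((c : OO) * g).norm = c * (c * g.norm) := by
  rw [GUA_norm, GUA_norm]
  simp
  ring

/-! ### one family -/

theorem GUA_fam {CP CN : ℝ} (hCP : 0 ≤ CP) (h2 : GRM_stmt)
    (hG : ∀ (E : ℕ) (P : ℤ) (k μ M₀ : OO) (s₀ : ℤ), 1 ≤ E → IsCoprime k (star k) →
      Nat.Coprime k.norm.natAbs (10 * E) → Nat.Coprime P.natAbs (k.norm.natAbs * E) → Nat.Coprime μ.norm.natAbs E →
      ∃ a : ℤ × ℤ × ℤ, RM k μ P a ∧ ∀ (B T : ℕ) (z₀ V : ℝ) (F : Finset (OO × ℤ)), 1 ≤ B → 1 ≤ T → 0 < V →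
        4 * T * V ≤ (E : ℝ) * (k.norm.natAbs : ℝ) ^ 3 →
        (∀ t ∈ F, CG k (μ * t.1) (P * t.2) ∧ (E : OO) ∣ μ * t.1 - M₀ ∧ (E : ℤ) ∣ P * t.2 - s₀ ∧
          |(t.1.re : ℝ)| + E ≤ E * B ∧ |(t.1.im : ℝ)| + E ≤ E * B ∧ z₀ ≤ t.2 ∧ (t.2 : ℝ) ≤ z₀ + V) →
        (F.card : ℝ) ≤ CP / T * ((B : ℝ) ^ 2 + B * NK B T E k a))
    (hN : ∀ (Q B T E c : ℕ) (G R : ℝ) (g : OO) (W : Finset OO) (a : OO → ℤ × ℤ × ℤ),
      1 ≤ Q → 1 ≤ B → 1 ≤ T → 1 ≤ E → 1 ≤ c → 1 ≤ G → g ≠ 0 → |va g| ≤ 2 * G → |vb g| ≤ 2 * G →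
      (E : ℝ) * T * c * G * B / (Q : ℝ) ^ (3 / 2 : ℝ) + G * (Q : ℝ) ^ (3 / 2 : ℝ) / B ≤ R →
      (∀ k ∈ W, KG Q k ∧ IsCoprime k (star g) ∧ Nat.Coprime c k.norm.natAbs ∧
        RQ k g c (a k).1 (a k).2.1 (a k).2.2) → (∀ k ∈ W, ∀ k₁ ∈ W, k ∣ k₁ → k₁ ∣ k → k = k₁) →
      ∑ k ∈ W, NK B T E k (a k) ≤ CN * (T * Q + R ^ (3 / 2 : ℝ) * ((T : ℝ) ^ (5 / 4 : ℝ) + Q * (T : ℝ) ^ (1 / 4 : ℝ))))
    (Q B T E c : ℕ) (G R z₀ V : ℝ) (g : OO) (W : Finset OO) (F : Finset (OO × OO × ℤ)) (M₀ : OO → OO) (s₀ : OO → ℤ)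
    (hQ : 1 ≤ Q) (hB : 1 ≤ B) (hT : 1 ≤ T) (hE : 1 ≤ E) (hc : 1 ≤ c) (hG1 : 1 ≤ G) (hg : g ≠ 0)
    (hva : |va g| ≤ 2 * G) (hvb : |vb g| ≤ 2 * G) (hV : 0 < V)
    (hR : (E : ℝ) * T * c * G * B / (Q : ℝ) ^ (3 / 2 : ℝ) + G * (Q : ℝ) ^ (3 / 2 : ℝ) / B ≤ R)
    (hW : ∀ k ∈ W, KG Q k ∧ Nat.Coprime k.norm.natAbs (10 * E) ∧
      Nat.Coprime ((c : ℤ) * g.norm).natAbs (k.norm.natAbs * E) ∧ 4 * T * V ≤ (E : ℝ) * (k.norm.natAbs : ℝ) ^ 3)
    (hW2 : ∀ k ∈ W, ∀ k₁ ∈ W, k ∣ k₁ → k₁ ∣ k → k = k₁)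
    (hF : ∀ t ∈ F, t.1 ∈ W ∧ CG t.1 t.2.1 t.2.2 ∧ (E : OO) ∣ t.2.1 - M₀ t.1 ∧ (E : ℤ) ∣ t.2.2 - s₀ t.1 ∧
      ∃ (M₂ : OO) (s₂ : ℤ), t.2.1 = ((c : ℤ) : OO) * g * M₂ ∧ t.2.2 = (c : ℤ) * g.norm * s₂ ∧
        |(M₂.re : ℝ)| + E ≤ E * B ∧ |(M₂.im : ℝ)| + E ≤ E * B ∧ z₀ ≤ s₂ ∧ (s₂ : ℝ) ≤ z₀ + V) :
    (F.card : ℝ) ≤ CP * (W.card * ((B : ℝ) ^ 2 / T)) + CP * CN * ((B : ℝ) / T *
      (T * Q + R ^ (3 / 2 : ℝ) * ((T : ℝ) ^ (5 / 4 : ℝ) + Q * (T : ℝ) ^ (1 / 4 : ℝ)))) := by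
  classical
  have hT0 : (0 : ℝ) < T := by exact_mod_cast hT
  -- the residues
  have key : ∀ k : OO, ∃ a : ℤ × ℤ × ℤ, k ∈ W → RM k (((c : ℤ) : OO) * g) ((c : ℤ) * g.norm) a ∧
      ∀ (B T : ℕ) (z₀ V : ℝ) (F : Finset (OO × ℤ)), 1 ≤ B → 1 ≤ T → 0 < V →
        4 * T * V ≤ (E : ℝ) * (k.norm.natAbs : ℝ) ^ 3 →
        (∀ t ∈ F, CG k (((c : ℤ) : OO) * g * t.1) ((c : ℤ) * g.norm * t.2) ∧ (E : OO) ∣ ((c : ℤ) : OO) * g * t.1 - M₀ k ∧
          (E : ℤ) ∣ (c : ℤ) * g.norm * t.2 - s₀ k ∧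
          |(t.1.re : ℝ)| + E ≤ E * B ∧ |(t.1.im : ℝ)| + E ≤ E * B ∧ z₀ ≤ t.2 ∧ (t.2 : ℝ) ≤ z₀ + V) →
        (F.card : ℝ) ≤ CP / T * ((B : ℝ) ^ 2 + B * NK B T E k a) := by
    intro k
    by_cases hk : k ∈ W
    · obtain ⟨h3, h4, h5, _⟩ := hW k hk
      have h6 : Nat.Coprime (((c : ℤ) : OO) * g).norm.natAbs E := by
        rw [GUA_nmul, Int.natAbs_mul]
        have h7 : Nat.Coprime ((c : ℤ) * g.norm).natAbs E := h5.coprime_mul_left_right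
        refine Nat.Coprime.mul_left ?_ h7
        refine h7.coprime_dvd_left ?_
        rw [Int.natAbs_mul]
        exact dvd_mul_right _ _
      obtain ⟨a, ha⟩ := hG E ((c : ℤ) * g.norm) k (((c : ℤ) : OO) * g) (M₀ k) (s₀ k) hE h3.cp h4 h5 h6
      exact ⟨a, fun _ => ha⟩
    · exact ⟨0, fun h => absurd h hk⟩
  choose a ha using key
  -- the sum of the near points
  have hsum : ∑ k ∈ W, NK B T E k (a k) ≤ CN * (T * Q + R ^ (3 / 2 : ℝ) * ((T : ℝ) ^ (5 / 4 : ℝ) + Q * (T : ℝ) ^ (1 / 4 : ℝ))) := by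
    refine hN Q B T E c G R g W a hQ hB hT hE hc hG1 hg hva hvb hR ?_ hW2
    intro k hk
    obtain ⟨h3, h4, h5, _⟩ := hW k hk
    have h6 : Nat.Coprime ((c : ℤ) * g.norm).natAbs k.norm.natAbs := h5.coprime_mul_right_right
    have h7 : IsCoprime k.norm ((c : ℤ) * g.norm) := by
      rw [Int.isCoprime_iff_nat_coprime]
      exact h6.symm
    have h8 := GUA_cop h7
    refine ⟨h3, h8.2, ?_, h2.2 k g c (a k) h8.1 (ha k hk).1⟩
    refine h6.coprime_dvd_left ?_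
    rw [Int.natAbs_mul, Int.natAbs_natCast]
    exact dvd_mul_right _ _
  -- the coordinates
  have key2 : ∀ t : OO × OO × ℤ, ∃ m : OO × ℤ, t ∈ F → t.2.1 = ((c : ℤ) : OO) * g * m.1 ∧ t.2.2 = (c : ℤ) * g.norm * m.2 ∧
        |(m.1.re : ℝ)| + E ≤ E * B ∧ |(m.1.im : ℝ)| + E ≤ E * B ∧ z₀ ≤ m.2 ∧ (m.2 : ℝ) ≤ z₀ + V := by
    intro t
    by_cases ht : t ∈ F
    · obtain ⟨_, _, _, _, M₂, s₂, h3⟩ := hF t ht
      exact ⟨(M₂, s₂), fun _ => h3⟩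
    · exact ⟨0, fun h => absurd h ht⟩
  choose m hm using key2
  have hk : ∀ k ∈ W, ((F.filter (fun t => t.1 = k)).card : ℝ) ≤ CP / T * ((B : ℝ) ^ 2 + B * NK B T E k (a k)) := by
    intro k hk
    have hinj : Set.InjOn m (F.filter (fun t => t.1 = k) : Finset (OO × OO × ℤ)) := by
      intro t ht t' ht' he
      rw [Finset.mem_coe, Finset.mem_filter] at ht ht'
      have h3 := hm t ht.1
      have h4 := hm t' ht'.1
      refine Prod.ext (ht.2.trans ht'.2.symm) (Prod.ext ?_ ?_)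
      · rw [h3.1, h4.1, he]
      · rw [h3.2.1, h4.2.1, he]
    rw [← Finset.card_image_of_injOn hinj]
    refine (ha k hk).2 B T z₀ V _ hB hT hV (hW k hk).2.2.2 ?_
    intro u hu
    rw [Finset.mem_image] at hu
    obtain ⟨t, ht, rfl⟩ := hu
    rw [Finset.mem_filter] at ht
    obtain ⟨_, h4, h5, h6, _⟩ := hF t ht.1
    obtain ⟨h7, h8, h9⟩ := hm t ht.1
    rw [ht.2, h7, h8] at h4
    rw [ht.2, h7] at h5
    rw [ht.2, h8] at h6
    exact ⟨h4, h5, h6, h9⟩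
  have hcard : F.card = ∑ k ∈ W, (F.filter (fun t => t.1 = k)).card :=
    Finset.card_eq_sum_card_fiberwise (fun t ht => (hF t ht).1)
  rw [hcard]
  push_cast
  refine (Finset.sum_le_sum hk).trans ?_
  rw [← Finset.mul_sum, Finset.sum_add_distrib, Finset.sum_const, nsmul_eq_mul, ← Finset.mul_sum]
  have hB0 : (0 : ℝ) ≤ B := Nat.cast_nonneg _
  have h9 : (B : ℝ) * ∑ k ∈ W, NK B T E k (a k) ≤ B * (CN * (T * Q + R ^ (3 / 2 : ℝ) * ((T : ℝ) ^ (5 / 4 : ℝ) + Q * (T : ℝ) ^ (1 / 4 : ℝ)))) :=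
    mul_le_mul_of_nonneg_left hsum hB0
  have h10 : 0 ≤ CP / T := div_nonneg hCP hT0.le
  calc CP / T * ((W.card : ℝ) * (B : ℝ) ^ 2 + B * ∑ k ∈ W, NK B T E k (a k))
      ≤ CP / T * ((W.card : ℝ) * (B : ℝ) ^ 2 + B * (CN * (T * Q + R ^ (3 / 2 : ℝ) * ((T : ℝ) ^ (5 / 4 : ℝ) + Q * (T : ℝ) ^ (1 / 4 : ℝ))))) :=
        mul_le_mul_of_nonneg_left (add_le_add le_rfl h9) h10
    _ = CP * (W.card * ((B : ℝ) ^ 2 / T)) + CP * CN * ((B : ℝ) / T *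
      (T * Q + R ^ (3 / 2 : ℝ) * ((T : ℝ) ^ (5 / 4 : ℝ) + Q * (T : ℝ) ^ (1 / 4 : ℝ)))) := by ring

/-! ### sizes -/

theorem GUA_coord {g M₂ M : OO} {l : ℕ} {y : ℝ} (hl : 0 < l) (hn : g.norm.natAbs = l) (h1 : g.re ^ 2 ≤ l)
    (h2 : g.im ^ 2 ≤ l) (hM : M = g * M₂) (h3 : |(M.re : ℝ)| ≤ y) (h4 : |(M.im : ℝ)| ≤ y) :
    |(M₂.re : ℝ)| ≤ 3 * y / √(l : ℝ) ∧ |(M₂.im : ℝ)| ≤ 3 * y / √(l : ℝ) := by
  have hl0 : (0 : ℝ) < l := by exact_mod_cast hl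
  have hs : 0 < √(l : ℝ) := Real.sqrt_pos.2 hl0
  have hss : √(l : ℝ) * √(l : ℝ) = l := Real.mul_self_sqrt hl0.le
  have hy : 0 ≤ y := (abs_nonneg _).trans h3
  have a1 : |(g.re : ℝ)| ≤ √(l : ℝ) := Real.abs_le_sqrt (by exact_mod_cast h1)
  have a2 : |(g.im : ℝ)| ≤ √(l : ℝ) := Real.abs_le_sqrt (by exact_mod_cast h2)
  have e1 : M.re = g.re * M₂.re + g.im * M₂.im := by
    rw [hM]
    simp
  have e2 : M.im = g.re * M₂.im + g.im * M₂.re + g.im * M₂.im := by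
    rw [hM]
    simp
  have e3 : (g.norm : ℝ) = g.re * g.re + g.re * g.im - g.im * g.im := by
    rw [GUA_norm]
    push_cast
    ring
  have hn1 : |(g.norm : ℝ)| = l := by
    rw [← hn, Nat.cast_natAbs, Int.cast_abs]
  have f1 : (g.norm : ℝ) * M₂.re = (g.re + g.im) * M.re - g.im * M.im := by
    rw [e3, e1, e2]
    push_cast
    ring
  have f2 : (g.norm : ℝ) * M₂.im = g.re * M.im - g.im * M.re := by
    rw [e3, e1, e2]
    push_cast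
    ring
  constructor
  · rw [le_div_iff₀ hs]
    have h5 : |(g.norm : ℝ)| * |(M₂.re : ℝ)| ≤ 3 * √(l : ℝ) * y := by
      rw [← abs_mul, f1]
      calc |((g.re : ℝ) + g.im) * M.re - g.im * M.im| ≤ |((g.re : ℝ) + g.im) * M.re| + |(g.im : ℝ) * M.im| := abs_sub _ _
        _ = |(g.re : ℝ) + g.im| * |(M.re : ℝ)| + |(g.im : ℝ)| * |(M.im : ℝ)| := by rw [abs_mul, abs_mul]
        _ ≤ (√(l : ℝ) + √(l : ℝ)) * y + √(l : ℝ) * y := by
            refine add_le_add (mul_le_mul ((abs_add_le _ _).trans (add_le_add a1 a2)) h3 (abs_nonneg _) (by positivity))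
              (mul_le_mul a2 h4 (abs_nonneg _) hs.le)
        _ = 3 * √(l : ℝ) * y := by ring
    rw [hn1] at h5
    have h6 : √(l : ℝ) * √(l : ℝ) * |(M₂.re : ℝ)| ≤ 3 * √(l : ℝ) * y := by
      rw [hss]
      exact h5
    refine le_of_mul_le_mul_left (a := √(l : ℝ)) ?_ hs
    linarith
  · rw [le_div_iff₀ hs]
    have h5 : |(g.norm : ℝ)| * |(M₂.im : ℝ)| ≤ 3 * √(l : ℝ) * y := by
      rw [← abs_mul, f2]
      calc |(g.re : ℝ) * M.im - g.im * M.re| ≤ |(g.re : ℝ) * M.im| + |(g.im : ℝ) * M.re| := abs_sub _ _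
        _ = |(g.re : ℝ)| * |(M.im : ℝ)| + |(g.im : ℝ)| * |(M.re : ℝ)| := by rw [abs_mul, abs_mul]
        _ ≤ √(l : ℝ) * y + √(l : ℝ) * y := by
            refine add_le_add (mul_le_mul a1 h4 (abs_nonneg _) hs.le) (mul_le_mul a2 h3 (abs_nonneg _) hs.le)
        _ ≤ 3 * √(l : ℝ) * y := by nlinarith [mul_nonneg hs.le hy]
    rw [hn1] at h5
    have h6 : √(l : ℝ) * √(l : ℝ) * |(M₂.im : ℝ)| ≤ 3 * √(l : ℝ) * y := by
      rw [hss]
      exact h5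
    refine le_of_mul_le_mul_left (a := √(l : ℝ)) ?_ hs
    linarith

theorem GUA_vab {g : OO} {l : ℕ} (h1 : g.re ^ 2 ≤ l) (h2 : g.im ^ 2 ≤ l) :
    |va g| ≤ 2 * (2 * √(l : ℝ)) ∧ |vb g| ≤ 2 * (2 * √(l : ℝ)) := by
  have a1 : |(g.re : ℝ)| ≤ √(l : ℝ) := Real.abs_le_sqrt (by exact_mod_cast h1)
  have a2 : |(g.im : ℝ)| ≤ √(l : ℝ) := Real.abs_le_sqrt (by exact_mod_cast h2)
  have h0 : 0 ≤ √(l : ℝ) := Real.sqrt_nonneg _
  have h5 : √(5 : ℝ) ≤ 3 := by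
    rw [Real.sqrt_le_left (by norm_num)]
    norm_num
  have h6 : 0 ≤ √(5 : ℝ) := Real.sqrt_nonneg _
  have h7 : |(1 + √(5 : ℝ)) / 2| ≤ 2 := by
    rw [abs_le]
    constructor <;> linarith
  have h8 : |(1 - √(5 : ℝ)) / 2| ≤ 2 := by
    rw [abs_le]
    constructor <;> linarith
  constructor
  · unfold va
    calc |(g.re : ℝ) + g.im * ((1 + √5) / 2)| ≤ |(g.re : ℝ)| + |(g.im : ℝ) * ((1 + √5) / 2)| := abs_add_le _ _
      _ = |(g.re : ℝ)| + |(g.im : ℝ)| * |(1 + √(5 : ℝ)) / 2| := by rw [abs_mul]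
      _ ≤ √(l : ℝ) + √(l : ℝ) * 2 := add_le_add a1 (mul_le_mul a2 h7 (abs_nonneg _) h0)
      _ ≤ 2 * (2 * √(l : ℝ)) := by linarith
  · unfold vb
    calc |(g.re : ℝ) + g.im * ((1 - √5) / 2)| ≤ |(g.re : ℝ)| + |(g.im : ℝ) * ((1 - √5) / 2)| := abs_add_le _ _
      _ = |(g.re : ℝ)| + |(g.im : ℝ)| * |(1 - √(5 : ℝ)) / 2| := by rw [abs_mul]
      _ ≤ √(l : ℝ) + √(l : ℝ) * 2 := add_le_add a1 (mul_le_mul a2 h8 (abs_nonneg _) h0)
      _ ≤ 2 * (2 * √(l : ℝ)) := by linarith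

theorem GUA_fin {CP CN CK CS C' w x y z Z y' f : ℝ} (hCP : 0 ≤ CP) (hCN : 0 ≤ CN) (hCK : 0 ≤ CK)
    (h : f ≤ CP * (w * z) + CP * CN * Z) (hw : w ≤ CK * x) (hz : 0 ≤ z) (hm : x * z ≤ CS * y) (he : Z ≤ C' * y') :
    f ≤ CP * (CK * CS) * y + CP * (CN * C') * y' := by
  have a1 : w * z ≤ CK * (CS * y) := by
    calc w * z ≤ CK * x * z := mul_le_mul_of_nonneg_right hw hz
      _ = CK * (x * z) := by ring
      _ ≤ CK * (CS * y) := mul_le_mul_of_nonneg_left hm hCK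
  have a2 : CP * (w * z) ≤ CP * (CK * (CS * y)) := mul_le_mul_of_nonneg_left a1 hCP
  have a3 : CP * CN * Z ≤ CP * CN * (C' * y') := mul_le_mul_of_nonneg_left he (mul_nonneg hCP hCN)
  calc f ≤ CP * (CK * (CS * y)) + CP * CN * (C' * y') := by linarith
    _ = CP * (CK * CS) * y + CP * (CN * C') * y' := by ring

/-! ### the row -/

theorem GUA (h1 : NKA_stmt) (h2 : GRM_stmt) (h3 : GPU_stmt) (h4 : GKT_stmt) (h5 : GKN_stmt) (h6 : GSU_stmt) (h7 : CTH_stmt) :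
    GUA_stmt := by
  classical
  obtain ⟨CN, hCN, hN⟩ := h1
  obtain ⟨CP, hCP, hP⟩ := h3
  obtain ⟨cK, CK, hcK, hCK, hK⟩ := h5
  obtain ⟨CS, hCS, hS⟩ := h6
  have hCN0 : 0 ≤ CN := le_trans zero_le_one hCN
  have hCP0 : 0 ≤ CP := le_trans zero_le_one hCP
  have hCK0 : 0 ≤ CK := le_trans zero_le_one hCK
  have hCS0 : 0 ≤ CS := le_trans zero_le_one hCS
  refine ⟨2 * (CP * (CK * CS)), ?_, ?_⟩
  · have := one_le_mul_of_one_le_of_one_le hCP (one_le_mul_of_one_le_of_one_le hCK hCS)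
    linarith
  intro P hP1 hP10
  obtain ⟨C', hC', hS'⟩ := hS P hP1
  have hC'0 : 0 ≤ C' := le_trans zero_le_one hC'
  refine ⟨2 * (CP * (CN * C')), ?_, ?_⟩
  · have := one_le_mul_of_one_le_of_one_le hCP (one_le_mul_of_one_le_of_one_le hCN hC')
    linarith
  intro ρ hρ
  obtain ⟨X₀, hX₀⟩ := hK (10 * P) (by omega)
  obtain ⟨N₀, hN₀⟩ := hS' ρ hρ (max 100 X₀)
  refine ⟨N₀, fun N X hN1 hX hXN l hl hl10 hlρ M₀ s₀ F hF => ?_⟩
  obtain ⟨hNN, hXX, hSl⟩ := hN₀ N X hN1 hX hXN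
  obtain ⟨hI, hII, _⟩ := hSl l hl.one_lt.le hlρ
  have hX100 : 100 ≤ X := (le_max_left _ _).trans hXX
  have hXX0 : X₀ ≤ X := (le_max_right _ _).trans hXX
  obtain ⟨_, hKc, _⟩ := hX₀ X hXX0
  obtain ⟨hKT1, hKT2⟩ := h4 X (10 * P) hX100 (dvd_mul_right _ _)
  have hρ0 : 0 < ρ := lt_of_lt_of_le zero_lt_one hρ
  have hN0 : 0 < N := lt_of_lt_of_le zero_lt_one hNN
  have hl0 : 0 < l := hl.pos
  have hlR : (0 : ℝ) < l := by exact_mod_cast hl0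
  have hl1 : (1 : ℝ) ≤ l := by exact_mod_cast hl.one_lt.le
  have hsl1 : 1 ≤ √(l : ℝ) := by
    rw [Real.one_le_sqrt]
    exact hl1
  have hsl0 : 0 < √(l : ℝ) := lt_of_lt_of_le zero_lt_one hsl1
  have hPR : (0 : ℝ) < P := by exact_mod_cast hP1
  have hQ : 1 ≤ ⌊X ^ 2⌋₊ := by
    refine Nat.le_floor ?_
    push_cast
    nlinarith
  have hS0 : 0 < SZ N X := by
    unfold SZ
    positivity
  have hsS : 0 ≤ √(SZ N X) := Real.sqrt_nonneg _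
  have hl10' : Nat.Coprime l 10 := hl10.coprime_mul_right_right
  have hlP : Nat.Coprime l P := hl10.coprime_mul_left_right
  have hlE : Nat.Coprime l (16 * 5 ^ 6 * P) := by
    refine Nat.Coprime.mul_right (Nat.Coprime.mul_right ?_ ?_) hlP
    · have : Nat.Coprime l 2 := hl10'.coprime_dvd_right (by norm_num)
      exact (this.pow_right 4 : Nat.Coprime l (2 ^ 4))
    · have : Nat.Coprime l 5 := hl10'.coprime_dvd_right (by norm_num)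
      exact this.pow_right 6
  have hE1 : 1 ≤ 16 * 5 ^ 6 * P := by omega
  -- the set of the k
  set W : Finset OO := (KT X (10 * P)).filter (fun k => ¬ (l : ℤ) ∣ k.norm) with hWdef
  have hWm : ∀ k ∈ W, k ∈ KT X (10 * P) ∧ ¬ (l : ℤ) ∣ k.norm := by
    intro k hk
    rw [hWdef, Finset.mem_filter] at hk
    exact hk
  have hWc : (W.card : ℝ) ≤ CK * (X ^ 2 / ((10 * P : ℕ) : ℝ) ^ 2) := by
    have h8 : (W.card : ℝ) ≤ ((KT X (10 * P)).card : ℝ) := by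
      exact_mod_cast Finset.card_le_card (Finset.filter_subset _ _)
    refine (h8.trans hKc).trans (le_of_eq ?_)
    ring
  have hW2 : ∀ k ∈ W, ∀ k₁ ∈ W, k ∣ k₁ → k₁ ∣ k → k = k₁ :=
    fun k hk k₁ hk₁ a b => hKT2 k (hWm k hk).1 k₁ (hWm k₁ hk₁).1 a b
  have hWf : ∀ (P' : ℤ) (T : ℕ), P'.natAbs = l → 4 * T * (SZ N X / (2 * l)) ≤ ((16 * 5 ^ 6 * P : ℕ) : ℝ) * (X ^ 2) ^ 3 → ∀ k ∈ W,
      KG ⌊X ^ 2⌋₊ k ∧ Nat.Coprime k.norm.natAbs (10 * (16 * 5 ^ 6 * P)) ∧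
      Nat.Coprime P'.natAbs (k.norm.natAbs * (16 * 5 ^ 6 * P)) ∧
      4 * T * (SZ N X / (2 * l)) ≤ ((16 * 5 ^ 6 * P : ℕ) : ℝ) * (k.norm.natAbs : ℝ) ^ 3 := by
    intro P' T hP' hT k hk
    obtain ⟨hk1, hk2⟩ := hWm k hk
    obtain ⟨a1, a2, a3, a4, a5⟩ := hKT1 k hk1
    refine ⟨a1, ?_, ?_, ?_⟩
    · have b1 : Nat.Coprime k.norm.natAbs 10 := a2.coprime_mul_right_right
      have b2 : Nat.Coprime k.norm.natAbs P := a2.coprime_mul_left_right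
      refine Nat.Coprime.mul_right b1 (Nat.Coprime.mul_right (Nat.Coprime.mul_right ?_ ?_) b2)
      · have : Nat.Coprime k.norm.natAbs 2 := b1.coprime_dvd_right (by norm_num)
        exact (this.pow_right 4 : Nat.Coprime k.norm.natAbs (2 ^ 4))
      · have : Nat.Coprime k.norm.natAbs 5 := b1.coprime_dvd_right (by norm_num)
        exact this.pow_right 6
    · rw [hP']
      refine Nat.Coprime.mul_right ?_ hlE
      rw [Nat.Prime.coprime_iff_not_dvd hl]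
      intro h8
      exact hk2 (Int.natCast_dvd.2 h8)
    · refine hT.trans (mul_le_mul_of_nonneg_left ?_ (by positivity))
      exact pow_le_pow_left₀ (by positivity) a4 3
  have hVpos : 0 < SZ N X / (2 * l) := by positivity
  have hFW : ∀ t ∈ F, t.1 ∈ W := by
    intro t ht
    obtain ⟨a1, _, _, a4⟩ := hF t ht
    rw [hWdef, Finset.mem_filter]
    exact ⟨a1.kk, a4⟩
  -- shape of the bound
  have hshape : ∀ f : ℝ, f ≤ 2 * (CP * (CK * CS) * (1 / ((l : ℝ) ^ 2 * (P : ℝ) ^ 5) * (ρ ^ (-(2 / 3) : ℝ) * N)) +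
      CP * (CN * C') * (1 / ρ * ((l : ℝ) ^ (1 / 4 : ℝ) * (1 + l * ρ ^ (-(2 / 3) : ℝ))) * (ρ ^ (-(2 / 3) : ℝ) * N))) →
      f ≤ (2 * (CP * (CK * CS)) / ((l : ℝ) ^ 2 * (P : ℝ) ^ 5) + 2 * (CP * (CN * C')) / ρ * ((l : ℝ) ^ (1 / 4 : ℝ) * (1 + l * ρ ^ (-(2 / 3) : ℝ)))) *
      (ρ ^ (-(2 / 3) : ℝ) * N) := by
    intro f hf
    refine hf.trans (le_of_eq ?_)
    ring
  apply hshape
  have hl5 : l % 5 = 1 ∨ l % 5 = 4 ∨ l % 5 = 2 ∨ l % 5 = 3 := by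
    have h8 : l % 5 ≠ 0 := by
      intro h8
      have h9 : 5 ∣ l := Nat.dvd_of_mod_eq_zero h8
      have h10 : (5 : ℕ) ∣ Nat.gcd l 10 := Nat.dvd_gcd h9 (by norm_num)
      rw [Nat.Coprime] at hl10'
      rw [hl10'] at h10
      omega
    omega
  have hl2 : l ≠ 2 := by
    rintro rfl
    norm_num at hl10'
  have hl5' : l ≠ 5 := by
    rintro rfl
    norm_num at hl10'
  -- the split case: one g
  have hsplit : ∀ (g : OO) (F' : Finset (OO × OO × ℤ)), g.norm.natAbs = l → g.re ^ 2 ≤ l → g.im ^ 2 ≤ l →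
      (∀ t ∈ F', t ∈ F ∧ g ∣ t.2.1) →
      (F'.card : ℝ) ≤ CP * (CK * CS) * (1 / ((l : ℝ) ^ 2 * (P : ℝ) ^ 5) * (ρ ^ (-(2 / 3) : ℝ) * N)) +
      CP * (CN * C') * (1 / ρ * ((l : ℝ) ^ (1 / 4 : ℝ) * (1 + l * ρ ^ (-(2 / 3) : ℝ))) * (ρ ^ (-(2 / 3) : ℝ) * N)) := by
    intro g F' hg1 hg2 hg3 hF'
    obtain ⟨B, T, R, hB, hT, hBE, hTV, hR, hm, he⟩ := hI
    have hT0 : (0 : ℝ) < T := by exact_mod_cast hT
    have hg0 : g ≠ 0 := by
      rintro rfl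
      simp at hg1
      omega
    have hnorm : ((1 : ℕ) : ℤ) * g.norm = l ∨ ((1 : ℕ) : ℤ) * g.norm = -l := by
      have := Int.natAbs_eq g.norm
      rw [hg1] at this
      simpa using this
    have hvab := GUA_vab hg2 hg3
    -- the interval
    obtain ⟨z₀, hz₀⟩ : ∃ z₀ : ℝ, ∀ (s s₂ : ℤ), s = ((1 : ℕ) : ℤ) * g.norm * s₂ → SZ N X / 2 < s → (s : ℝ) ≤ SZ N X →
        z₀ ≤ s₂ ∧ (s₂ : ℝ) ≤ z₀ + SZ N X / (2 * l) := by
      rcases hnorm with h8 | h8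
      · refine ⟨SZ N X / (2 * l), fun s s₂ hs ha hb => ?_⟩
        rw [h8] at hs
        rw [hs] at ha hb
        push_cast at ha hb
        constructor
        · rw [div_le_iff₀ (by positivity)]
          linarith
        · have : SZ N X / (2 * l) + SZ N X / (2 * l) = SZ N X / l := by
            field_simp
            ring
          rw [this, le_div_iff₀ hlR]
          linarith
      · refine ⟨-(SZ N X / l), fun s s₂ hs ha hb => ?_⟩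
        rw [h8] at hs
        rw [hs] at ha hb
        push_cast at ha hb
        constructor
        · rw [neg_le, le_div_iff₀ hlR]
          linarith
        · have : -(SZ N X / l) + SZ N X / (2 * l) = -(SZ N X / (2 * l)) := by
            field_simp
            ring
          rw [this, le_neg, div_le_iff₀ (by positivity)]
          linarith
    have main := GUA_fam hCP0 h2 hP hN ⌊X ^ 2⌋₊ B T (16 * 5 ^ 6 * P) 1 (2 * √(l : ℝ)) R z₀ (SZ N X / (2 * l)) g W F' M₀ s₀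
      hQ hB hT hE1 le_rfl (by linarith) hg0 hvab.1 hvab.2 hVpos ?_ (hWf _ T ?_ hTV) hW2 ?_
    · refine GUA_fin hCP0 hCN0 hCK0 main hWc (by positivity) (hm.trans (le_of_eq (by ring))) (he.trans (le_of_eq (by ring)))
    · refine le_trans (le_of_eq ?_) hR
      push_cast
      ring
    · simpa using hg1
    · intro t ht
      obtain ⟨htF, hgt⟩ := hF' t ht
      obtain ⟨a1, a2, a3, a4⟩ := hF t htF
      obtain ⟨M₂, hM₂⟩ := hgt
      have hls : ((1 : ℕ) : ℤ) * g.norm ∣ t.2.2 := by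
        rcases hnorm with h8 | h8
        · rw [h8]
          exact a3
        · rw [h8]
          exact (neg_dvd).2 a3
      obtain ⟨s₂, hs₂⟩ := hls
      have hco := GUA_coord (y := √(SZ N X) / 100) hl0 hg1 hg2 hg3 hM₂ a1.m1 a1.m2
      have hb : 3 * (√(SZ N X) / 100) / √(l : ℝ) ≤ 7 * √(SZ N X) / (100 * √(l : ℝ)) := by
        have : 3 * (√(SZ N X) / 100) / √(l : ℝ) = 3 * (√(SZ N X) / (100 * √(l : ℝ))) := by
          field_simp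
        rw [this]
        have h9 : 7 * √(SZ N X) / (100 * √(l : ℝ)) = 7 * (√(SZ N X) / (100 * √(l : ℝ))) := by ring
        rw [h9]
        have : 0 ≤ √(SZ N X) / (100 * √(l : ℝ)) := by positivity
        linarith
      refine ⟨hFW t htF, a1.cg, a1.cm, a1.cs, M₂, s₂, ?_, hs₂, ?_, ?_, hz₀ _ _ hs₂ a1.s1 a1.s2⟩
      · rw [hM₂]
        simp
      · exact (add_le_add (hco.1.trans hb) le_rfl).trans hBE
      · exact (add_le_add (hco.2.trans hb) le_rfl).trans hBE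
  have hYnn : 0 ≤ CP * (CK * CS) * (1 / ((l : ℝ) ^ 2 * (P : ℝ) ^ 5) * (ρ ^ (-(2 / 3) : ℝ) * N)) +
      CP * (CN * C') * (1 / ρ * ((l : ℝ) ^ (1 / 4 : ℝ) * (1 + l * ρ ^ (-(2 / 3) : ℝ))) * (ρ ^ (-(2 / 3) : ℝ) * N)) := by
    positivity
  have hcase : (l % 5 = 1 ∨ l % 5 = 4) ∨ (l % 5 = 2 ∨ l % 5 = 3) := by
    rcases hl5 with h8 | h8 | h8 | h8
    · exact Or.inl (Or.inl h8)
    · exact Or.inl (Or.inr h8)
    · exact Or.inr (Or.inl h8)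
    · exact Or.inr (Or.inr h8)
  rcases hcase with hc | hc
  · -- split
    obtain ⟨r, hr⟩ := h7.2.1 l hl hc
    obtain ⟨g₁, hg₁, hg₁a, hg₁b, hg₁c⟩ := h7.1 l r hl hl5' hr
    obtain ⟨g₂, hg₂, hg₂a, hg₂b, hg₂c⟩ := h7.1 l (1 - r) hl hl5' (by
      have : (1 - r) ^ 2 - (1 - r) - 1 = r ^ 2 - r - 1 := by ring
      rw [this]
      exact hr)
    have hun : F ⊆ F.filter (fun t => g₁ ∣ t.2.1) ∪ F.filter (fun t => g₂ ∣ t.2.1) := by
      intro t ht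
      obtain ⟨_, a2, _, _⟩ := hF t ht
      rw [Finset.mem_union, Finset.mem_filter, Finset.mem_filter]
      rw [hg₁c, hg₂c]
      have h8 : (l : ℤ) ∣ (t.2.1.re + r * t.2.1.im) * (t.2.1.re + (1 - r) * t.2.1.im) := by
        have e : (t.2.1.re + r * t.2.1.im) * (t.2.1.re + (1 - r) * t.2.1.im) =
            t.2.1.norm - (r ^ 2 - r - 1) * t.2.1.im ^ 2 := by
          rw [GUA_norm]
          ring
        rw [e]
        exact dvd_sub a2 (hr.mul_right _)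
      rcases (Nat.prime_iff_prime_int.1 hl).dvd_or_dvd h8 with h9 | h9
      · exact Or.inl ⟨ht, h9⟩
      · exact Or.inr ⟨ht, h9⟩
    have hcd : (F.card : ℝ) ≤ ((F.filter (fun t => g₁ ∣ t.2.1)).card : ℝ) + ((F.filter (fun t => g₂ ∣ t.2.1)).card : ℝ) := by
      have := (Finset.card_le_card hun).trans (Finset.card_union_le _ _)
      exact_mod_cast this
    have b1 := hsplit g₁ (F.filter (fun t => g₁ ∣ t.2.1)) hg₁ hg₁a hg₁b (fun t ht => Finset.mem_filter.1 ht)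
    have b2 := hsplit g₂ (F.filter (fun t => g₂ ∣ t.2.1)) hg₂ hg₂a hg₂b (fun t ht => Finset.mem_filter.1 ht)
    linarith
  · -- inert
    obtain ⟨B, T, R, hB, hT, hBE, hTV, hR, hm, he⟩ := hII
    have hT0 : (0 : ℝ) < T := by exact_mod_cast hT
    have o1 : (1 : OO).re = 1 := rfl
    have o2 : (1 : OO).im = 0 := rfl
    have hv1 : |va (1 : OO)| ≤ 2 * 1 := by
      unfold va
      rw [o1, o2]
      norm_num
    have hv2 : |vb (1 : OO)| ≤ 2 * 1 := by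
      unfold vb
      rw [o1, o2]
      norm_num
    have hn1 : ((l : ℤ) * (1 : OO).norm) = l := by
      rw [map_one, mul_one]
    have main := GUA_fam hCP0 h2 hP hN ⌊X ^ 2⌋₊ B T (16 * 5 ^ 6 * P) l 1 R (SZ N X / (2 * l)) (SZ N X / (2 * l)) (1 : OO) W F M₀ s₀
      hQ hB hT hE1 hl.one_lt.le le_rfl one_ne_zero hv1 hv2 hVpos ?_ (hWf _ T ?_ hTV) hW2 ?_
    · have := GUA_fin hCP0 hCN0 hCK0 main hWc (by positivity) (hm.trans (le_of_eq (by ring :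
          CS / ((l : ℝ) ^ 2 * (P : ℝ) ^ 5) * (ρ ^ (-(2 / 3) : ℝ) * N) = CS * (1 / ((l : ℝ) ^ 2 * (P : ℝ) ^ 5) * (ρ ^ (-(2 / 3) : ℝ) * N))))) (he.trans (le_of_eq (by ring :
          C' / ρ * ((l : ℝ) ^ (1 / 4 : ℝ) * (1 + l * ρ ^ (-(2 / 3) : ℝ))) * (ρ ^ (-(2 / 3) : ℝ) * N) =
          C' * (1 / ρ * ((l : ℝ) ^ (1 / 4 : ℝ) * (1 + l * ρ ^ (-(2 / 3) : ℝ))) * (ρ ^ (-(2 / 3) : ℝ) * N)))))
      linarith
    · refine le_trans (le_of_eq ?_) hR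
      push_cast
      ring
    · rw [hn1]
      simp
    · intro t ht
      obtain ⟨a1, a2, a3, a4⟩ := hF t ht
      obtain ⟨M₂, hM₂⟩ := h7.2.2 l hl hl2 hc t.2.1 a2
      obtain ⟨s₂, hs₂⟩ := a3
      have e1 : t.2.1.re = l * M₂.re := by
        rw [hM₂]
        simp
      have e2 : t.2.1.im = l * M₂.im := by
        rw [hM₂]
        simp
      have c1 : |(M₂.re : ℝ)| ≤ 7 * √(SZ N X) / (100 * l) := by
        have b1 := a1.m1
        rw [e1] at b1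
        push_cast at b1
        rw [abs_mul, abs_of_pos hlR] at b1
        rw [le_div_iff₀ (by positivity)]
        nlinarith
      have c2 : |(M₂.im : ℝ)| ≤ 7 * √(SZ N X) / (100 * l) := by
        have b1 := a1.m2
        rw [e2] at b1
        push_cast at b1
        rw [abs_mul, abs_of_pos hlR] at b1
        rw [le_div_iff₀ (by positivity)]
        nlinarith
      have d1 := a1.s1
      have d2 := a1.s2
      refine ⟨hFW t ht, a1.cg, a1.cm, a1.cs, M₂, s₂, ?_, ?_, ?_, ?_, ?_, ?_⟩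
      · rw [hM₂]
        simp
      · rw [hn1]
        exact hs₂
      · exact (add_le_add c1 le_rfl).trans hBE
      · exact (add_le_add c2 le_rfl).trans hBE
      · rw [hs₂] at d1
        push_cast at d1
        rw [div_le_iff₀ (by positivity)]
        linarith
      · rw [hs₂] at d2
        push_cast at d2
        have : SZ N X / (2 * l) + SZ N X / (2 * l) = SZ N X / l := by
          field_simp
          ring
        rw [this, le_div_iff₀ hlR]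
        linarith

end Pool.Agent.RF
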