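import Pool.Agent.helper93.RG.Spec

set_option autoImplicit false

namespace Pool.Agent.RG

open Finset

theorem GDD (hSWE : SWE_stmt) : GDD_stmt := by
  obtain ⟨x₁, h1⟩ := hSWE
  refine ⟨1 / 528, max x₁ ⌈Real.exp 66⌉₊, by norm_num, fun x hx => ?_⟩
  have hx1 : x₁ ≤ x := (le_max_left _ _).trans hx
  have hx2 : Real.exp 66 ≤ (x : ℝ) := by
    have h2 : ⌈Real.exp 66⌉₊ ≤ x := (le_max_right _ _).trans hx
    exact (Nat.le_ceil _).trans (by exact_mod_cast h2)
  have hx0 : (0 : ℝ) < (x : ℝ) := lt_of_lt_of_le (Real.exp_pos _) hx2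
  have hL : 66 ≤ Real.log x := by
    rw [Real.le_log_iff_exp_le hx0]; exact hx2
  set L : ℝ := Real.log x with hLd
  have hL0 : 0 < L := by linarith
  set E : ℕ := ⌈32 * L⌉₊ with hE
  have hE1 : 32 * L ≤ (E : ℝ) := Nat.le_ceil _
  have hE2 : (E : ℝ) ≤ 33 * L := by
    have h2 : (E : ℝ) < 32 * L + 1 := Nat.ceil_lt_add_one (by positivity)
    linarith
  have hE0 : 0 < E := by
    have h2 : (0 : ℝ) < (E : ℝ) := by linarith
    exact_mod_cast h2
  have hEr : (0 : ℝ) < (E : ℝ) := by exact_mod_cast hE0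
  set P : Finset (ℕ × ℕ) := ((Ico E (2 * E)) ×ˢ (Ioc x (2 * x))).filter
    (fun w => w.2.Prime ∧ w.2 ≡ 1 [MOD w.1]) with hP
  set f : ℕ × ℕ → ℕ := fun w => (w.2 - 1) / w.1 with hf
  -- elements of P
  have hmem : ∀ w ∈ P, E ≤ w.1 ∧ w.1 < 2 * E ∧ x < w.2 ∧ w.2 ≤ 2 * x ∧ w.2.Prime ∧
      w.1 * f w = w.2 - 1 := by
    intro w hw
    rw [hP, mem_filter, mem_product, mem_Ico, mem_Ioc] at hw
    obtain ⟨⟨⟨a1, a2⟩, a3, a4⟩, a5, a6⟩ := hw
    refine ⟨a1, a2, a3, a4, a5, ?_⟩
    have h2 : w.1 ∣ w.2 - 1 := (Nat.modEq_iff_dvd' a5.one_lt.le).1 a6.symm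
    exact Nat.mul_div_cancel' h2
  -- lower bound for the number of pairs
  have hPcard : (x : ℝ) / (8 * L) ≤ (#P : ℝ) := by
    have h2 : #P = ∑ e ∈ Ico E (2 * E), #((Ioc x (2 * x)).filter fun p => p.Prime ∧ p ≡ 1 [MOD e]) := by
      rw [hP, Finset.card_filter, Finset.sum_product]
      refine Finset.sum_congr rfl fun e _ => ?_
      rw [Finset.card_filter]
    rw [h2, Nat.cast_sum]
    have h3 : ∀ e ∈ Ico E (2 * E), (x : ℝ) / (8 * E * L) ≤
        (#((Ioc x (2 * x)).filter fun p => p.Prime ∧ p ≡ 1 [MOD e]) : ℝ) := by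
      intro e he
      rw [mem_Ico] at he
      have he0 : 0 < e := by omega
      have her : (e : ℝ) ≤ 2 * E := by exact_mod_cast he.2.le
      have her0 : (0 : ℝ) < e := by exact_mod_cast he0
      have h4 := h1 x hx1 e he0 (by nlinarith)
      refine le_trans ?_ h4
      rw [← hLd]
      apply div_le_div_of_nonneg_left hx0.le (by positivity)
      nlinarith
    calc (x : ℝ) / (8 * L) = ∑ e ∈ Ico E (2 * E), (x : ℝ) / (8 * E * L) := by
          rw [Finset.sum_const, Nat.card_Ico, nsmul_eq_mul]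
          have h5 : ((2 * E - E : ℕ) : ℝ) = E := by
            rw [show 2 * E - E = E by omega]
          rw [h5]
          field_simp
      _ ≤ _ := Finset.sum_le_sum h3
  -- the values
  set I : Finset ℕ := Icc 1 (2 * x / E) with hI
  have hmaps : ∀ w ∈ P, f w ∈ I := by
    intro w hw
    obtain ⟨a1, a2, a3, a4, a5, a6⟩ := hmem w hw
    have hx0' : 0 < x := by exact_mod_cast hx0
    rw [hI, mem_Icc]
    constructor
    · rcases Nat.eq_zero_or_pos (f w) with h2 | h2
      · rw [h2, mul_zero] at a6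
        omega
      · exact h2
    · rw [Nat.le_div_iff_mul_le hE0]
      calc f w * E = E * f w := mul_comm _ _
        _ ≤ w.1 * f w := Nat.mul_le_mul_right _ a1
        _ = w.2 - 1 := a6
        _ ≤ 2 * x := by omega
  have hIcard : (#I : ℝ) ≤ x / (16 * L) := by
    rw [hI, Nat.card_Icc, Nat.add_sub_cancel]
    calc ((2 * x / E : ℕ) : ℝ) ≤ ((2 * x : ℕ) : ℝ) / (E : ℝ) := Nat.cast_div_le
      _ ≤ 2 * x / (32 * L) := by
          push_cast
          exact div_le_div_of_nonneg_left (by positivity) (by positivity) hE1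
      _ = x / (16 * L) := by field_simp; ring
  have hfib : ∀ d : ℕ, #(P.filter fun w => f w = d) ≤ E := by
    intro d
    have h2 : #(P.filter fun w => f w = d) ≤ #(Ico E (2 * E)) := by
      refine Finset.card_le_card_of_injOn (fun w => w.1) ?_ ?_
      · intro w hw
        have h3 := hmem w (mem_filter.1 hw).1
        exact Finset.mem_coe.2 (mem_Ico.2 ⟨h3.1, h3.2.1⟩)
      · intro w hw w' hw' hww
        have h3 := hmem w (mem_filter.1 hw).1
        have h4 := hmem w' (mem_filter.1 hw').1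
        have h5 := (mem_filter.1 hw).2
        have h6 := (mem_filter.1 hw').2
        have h7 : w.1 = w'.1 := hww
        have h8 := h3.2.2.2.2.2
        have h9 := h4.2.2.2.2.2
        rw [h5] at h8
        rw [h6] at h9
        rw [← h7] at h9
        have h10 := h3.2.2.2.2.1.one_lt
        have h11 := h4.2.2.2.2.1.one_lt
        exact Prod.ext h7 (by omega)
    rw [Nat.card_Ico] at h2
    omega
  set D : Finset ℕ := I.filter (fun d => 1 < #(P.filter fun w => f w = d)) with hD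
  refine ⟨D, ?_, ?_⟩
  · intro d hd
    rw [hD, mem_filter, hI, mem_Icc] at hd
    obtain ⟨⟨d1, d2⟩, d3⟩ := hd
    obtain ⟨w, hw, w', hw', hne⟩ := Finset.one_lt_card.1 d3
    obtain ⟨a1, a2, a3, a4, a5, a6⟩ := hmem w (mem_filter.1 hw).1
    obtain ⟨b1, b2, b3, b4, b5, b6⟩ := hmem w' (mem_filter.1 hw').1
    rw [(mem_filter.1 hw).2] at a6
    rw [(mem_filter.1 hw').2] at b6
    refine ⟨d1, ?_, ?_, w.2, w'.2, a5, b5, ?_, ⟨w.1, by rw [← a6, mul_comm]⟩,
      ⟨w'.1, by rw [← b6, mul_comm]⟩, a3, a4, b3, b4⟩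
    · exact d2.trans (Nat.div_le_self _ _)
    · have h2 : x ≤ w.1 * d := by omega
      have h3 : w.1 * d ≤ 2 * E * d := Nat.mul_le_mul_right _ a2.le
      have h4 : (x : ℝ) ≤ 2 * E * d := by exact_mod_cast h2.trans h3
      rw [div_le_iff₀ hL0]
      have hd0 : (0 : ℝ) ≤ d := by positivity
      nlinarith
    · intro h2
      apply hne
      refine Prod.ext ?_ h2
      rw [← h2, ← a6] at b6
      exact (Nat.eq_of_mul_eq_mul_right d1 b6).symm
  · have h2 : #P = ∑ d ∈ I, #(P.filter fun w => f w = d) :=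
      Finset.card_eq_sum_card_fiberwise fun w hw => hmaps w hw
    have h3 : ∀ d ∈ I, #(P.filter fun w => f w = d) ≤
        (if 1 < #(P.filter fun w => f w = d) then E else 0) + 1 := by
      intro d _
      split_ifs with h4
      · exact (hfib d).trans (Nat.le_succ _)
      · omega
    have h4 : #P ≤ #D * E + #I := by
      rw [h2]
      refine (Finset.sum_le_sum h3).trans (le_of_eq ?_)
      rw [Finset.sum_add_distrib, ← Finset.sum_filter, Finset.sum_const, Finset.sum_const,
        smul_eq_mul, smul_eq_mul, mul_one]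
    have h5 : (#P : ℝ) ≤ #D * E + #I := by exact_mod_cast h4
    have h6 : (x : ℝ) / (16 * L) ≤ #D * E := by
      have h7 : (x : ℝ) / (8 * L) = x / (16 * L) + x / (16 * L) := by field_simp; ring
      linarith
    have h7 : (x : ℝ) / (16 * L) ≤ #D * (33 * L) := h6.trans
      (mul_le_mul_of_nonneg_left hE2 (by positivity))
    rw [div_le_iff₀ (by positivity)] at h7 ⊢
    nlinarith

end Pool.Agent.RG
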