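import Pool.Agent.helper93.RG.Spec

set_option autoImplicit false

namespace Pool.Agent.RG

open Finset

private theorem PRM_log (x : ℝ) (hx : 1 ≤ x) : Real.log x ≤ 4 * Real.sqrt (Real.sqrt x) := by
  have h0 : 0 < x := by linarith
  have h1 : Real.log (Real.sqrt (Real.sqrt x)) ≤ Real.sqrt (Real.sqrt x) - 1 :=
    Real.log_le_sub_one_of_pos (Real.sqrt_pos.2 (Real.sqrt_pos.2 h0))
  rw [Real.log_sqrt (Real.sqrt_nonneg _), Real.log_sqrt h0.le] at h1
  linarith

/-- the primes of `(U/4, U]` carry enough weight -/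
private theorem PRM_theta (U : ℕ) (hU : 10 ^ 9 ≤ U) :
    Real.log 2 * U / 4 ≤ Chebyshev.theta (U : ℝ) - Chebyshev.theta ((U : ℝ) / 4) := by
  have hUr : (10 : ℝ) ^ 9 ≤ (U : ℝ) := by exact_mod_cast hU
  have hU0 : (0 : ℝ) < (U : ℝ) := by linarith [show (0 : ℝ) < (10 : ℝ) ^ 9 by norm_num]
  have hU1 : (1 : ℝ) ≤ (U : ℝ) := by linarith [show (1 : ℝ) < (10 : ℝ) ^ 9 by norm_num]
  have h1 := Chebyshev.theta_ge U
  have h2 := Chebyshev.theta_le_log4_mul_x (x := (U : ℝ) / 4) (by positivity)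
  have h3 : Real.log 4 = 2 * Real.log 2 := by
    rw [show (4 : ℝ) = 2 ^ 2 by norm_num, Real.log_pow]; norm_num
  rw [h3] at h2
  set s := Real.sqrt U with hs
  set q := Real.sqrt s with hq
  have hs0 : 0 ≤ s := Real.sqrt_nonneg _
  have hq0 : 0 ≤ q := Real.sqrt_nonneg _
  have hss : s * s = U := Real.mul_self_sqrt hU0.le
  have hqq : q * q = s := Real.mul_self_sqrt hs0
  have hlog : Real.log U ≤ 4 * q := PRM_log U hU1
  have hlog1 : Real.log ((U : ℝ) + 1) ≤ Real.log U + 1 := by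
    have h4 : (U : ℝ) + 1 = U * (1 + 1 / U) := by field_simp
    rw [h4, Real.log_mul hU0.ne' (by positivity)]
    have h5 : Real.log (1 + 1 / (U : ℝ)) ≤ 1 + 1 / (U : ℝ) - 1 :=
      Real.log_le_sub_one_of_pos (by positivity)
    have h6 : 1 / (U : ℝ) ≤ 1 := by rw [div_le_one hU0]; exact hU1
    linarith
  have hq170 : 170 ≤ q := by
    rw [hq, hs]
    apply Real.le_sqrt_of_sq_le
    apply Real.le_sqrt_of_sq_le
    norm_num
    linarith [show (10 : ℝ) ^ 9 = 1000000000 by norm_num]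
  have hl2 : (0.69 : ℝ) ≤ Real.log 2 := by linarith [Real.log_two_gt_d9]
  -- 4 q + 1 + 2 s 4 q ≤ (log 2) U / 4
  have h7 : 2 * s * Real.log U ≤ 8 * (q * s) := by nlinarith
  have hs1 : 170 * q ≤ s := by nlinarith
  have h8 : 170 * (q * s) ≤ U := by nlinarith
  have h9 : 170 ≤ s := by nlinarith
  have h10 : 170 * q ≤ q * s := by nlinarith
  nlinarith

private theorem PRM_sum (U : ℕ) (hU : 10 ^ 9 ≤ U) :
    (U : ℝ) ^ 3 / (200 * Real.log U) ≤
      ((∑ a ∈ (range (U + 1)).filter Nat.Prime, a * (a - 1) : ℕ) : ℝ) := by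
  have hUr : (10 : ℝ) ^ 9 ≤ (U : ℝ) := by exact_mod_cast hU
  have hU0 : (0 : ℝ) < (U : ℝ) := by linarith [show (0 : ℝ) < (10 : ℝ) ^ 9 by norm_num]
  have hU1 : (1 : ℝ) < (U : ℝ) := by linarith [show (1 : ℝ) < (10 : ℝ) ^ 9 by norm_num]
  have hlU : 0 < Real.log U := Real.log_pos hU1
  have hth := PRM_theta U hU
  set S : Finset ℕ := (Ioc 0 U).filter Nat.Prime with hS
  set T : Finset ℕ := (Ioc 0 ⌊(U : ℝ) / 4⌋₊).filter Nat.Prime with hT
  have hthS : Chebyshev.theta (U : ℝ) = ∑ p ∈ S, Real.log p := by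
    unfold Chebyshev.theta
    rw [Nat.floor_natCast]
  have hthT : Chebyshev.theta ((U : ℝ) / 4) = ∑ p ∈ T, Real.log p := rfl
  have hTS : T ⊆ S := by
    intro p hp
    rw [hT, mem_filter, mem_Ioc] at hp
    rw [hS, mem_filter, mem_Ioc]
    refine ⟨⟨hp.1.1, hp.1.2.trans ?_⟩, hp.2⟩
    apply Nat.floor_le_of_le
    linarith
  have hdiff : ∑ p ∈ S \ T, Real.log p = Chebyshev.theta (U : ℝ) - Chebyshev.theta ((U : ℝ) / 4) := by
    rw [hthS, hthT, ← Finset.sum_sdiff hTS]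
    ring
  have hsub : S \ T ⊆ (range (U + 1)).filter Nat.Prime := by
    intro p hp
    have h1 := (mem_sdiff.1 hp).1
    rw [hS, mem_filter, mem_Ioc] at h1
    rw [mem_filter, mem_range]
    exact ⟨by omega, h1.2⟩
  have hcast : ((∑ a ∈ (range (U + 1)).filter Nat.Prime, a * (a - 1) : ℕ) : ℝ) =
      ∑ a ∈ (range (U + 1)).filter Nat.Prime, (a : ℝ) * ((a : ℝ) - 1) := by
    rw [Nat.cast_sum]
    refine Finset.sum_congr rfl fun a ha => ?_
    have h1 := (mem_filter.1 ha).2.one_lt.le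
    rw [Nat.cast_mul, Nat.cast_sub h1, Nat.cast_one]
  have hterm : ∀ p ∈ S \ T, (U : ℝ) ^ 2 / (32 * Real.log U) * Real.log p ≤ (p : ℝ) * ((p : ℝ) - 1) := by
    intro p hp
    obtain ⟨h1, h2⟩ := mem_sdiff.1 hp
    rw [hS, mem_filter, mem_Ioc] at h1
    have h3 : (U : ℝ) / 4 < p := by
      by_contra h4
      push Not at h4
      apply h2
      rw [hT, mem_filter, mem_Ioc]
      exact ⟨⟨h1.1.1, Nat.le_floor h4⟩, h1.2⟩
    have h5 : (p : ℝ) ≤ U := by exact_mod_cast h1.1.2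
    have hp0 : (0 : ℝ) < p := by linarith
    have h6 : Real.log p ≤ Real.log U := Real.log_le_log hp0 h5
    have h7 : (U : ℝ) ^ 2 / (32 * Real.log U) * Real.log p ≤
        (U : ℝ) ^ 2 / (32 * Real.log U) * Real.log U :=
      mul_le_mul_of_nonneg_left h6 (by positivity)
    have h8 : (U : ℝ) ^ 2 / (32 * Real.log U) * Real.log U = (U : ℝ) ^ 2 / 32 := by
      field_simp
    have h9 : (U : ℝ) ^ 2 / 32 ≤ (p : ℝ) * ((p : ℝ) - 1) := by nlinarith
    linarith
  have hpos : ∀ a ∈ (range (U + 1)).filter Nat.Prime, a ∉ S \ T → 0 ≤ (a : ℝ) * ((a : ℝ) - 1) := by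
    intro a ha _
    have h1 : (1 : ℝ) ≤ a := by exact_mod_cast (mem_filter.1 ha).2.one_lt.le
    nlinarith
  rw [hcast]
  calc (U : ℝ) ^ 3 / (200 * Real.log U)
      ≤ (U : ℝ) ^ 2 / (32 * Real.log U) * (Real.log 2 * U / 4) := by
        rw [div_mul_eq_mul_div, div_le_div_iff₀ (by positivity) (by positivity)]
        have hl2 : (0.69 : ℝ) ≤ Real.log 2 := by linarith [Real.log_two_gt_d9]
        have h3 : 0 ≤ (U : ℝ) ^ 3 * Real.log U := by positivity
        nlinarith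
    _ ≤ (U : ℝ) ^ 2 / (32 * Real.log U) * ∑ p ∈ S \ T, Real.log p := by
        rw [hdiff]
        exact mul_le_mul_of_nonneg_left hth (by positivity)
    _ = ∑ p ∈ S \ T, (U : ℝ) ^ 2 / (32 * Real.log U) * Real.log p := by rw [Finset.mul_sum]
    _ ≤ ∑ p ∈ S \ T, (p : ℝ) * ((p : ℝ) - 1) := Finset.sum_le_sum hterm
    _ ≤ _ := Finset.sum_le_sum_of_subset_of_nonneg hsub hpos

theorem PRM : PRM_stmt := by
  refine ⟨10 ^ 9 + 1, by norm_num, fun n hn => ?_⟩
  have hnr : (3 : ℝ) ≤ (n : ℝ) := by exact_mod_cast hn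
  have hn0 : (0 : ℝ) < n := by linarith
  have hln1 : 1 ≤ Real.log n := by
    rw [Real.le_log_iff_exp_le hn0]
    linarith [Real.exp_one_lt_d9]
  have hnl : 1 ≤ (n : ℝ) * Real.log n := by nlinarith
  set t : ℝ := ((n : ℝ) * Real.log n) ^ ((1 : ℝ) / 3) with ht
  have ht1 : 1 ≤ t := Real.one_le_rpow hnl (by norm_num)
  have ht3 : t ^ 3 = (n : ℝ) * Real.log n := by
    rw [ht, ← Real.rpow_natCast, ← Real.rpow_mul (by positivity)]
    norm_num
  set K : ℝ := 10 ^ 9 with hK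
  have hK1 : (1 : ℝ) ≤ K := by rw [hK]; norm_num
  set U : ℕ := ⌈K * t⌉₊ with hU
  have hKt : K ≤ K * t := by nlinarith
  have hUge : K * t ≤ (U : ℝ) := Nat.le_ceil _
  have hUle : (U : ℝ) ≤ K * t + 1 := (Nat.ceil_lt_add_one (by positivity)).le
  have hU9 : 10 ^ 9 ≤ U := by
    have h1 : ((10 ^ 9 : ℕ) : ℝ) ≤ (U : ℝ) := by
      push_cast
      linarith
    exact_mod_cast h1
  have hU0 : (0 : ℝ) < U := by linarith
  have hU1 : (1 : ℝ) < U := by
    have : (1 : ℝ) < K := by rw [hK]; norm_num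
    linarith
  have hlU : 0 < Real.log U := Real.log_pos hU1
  refine ⟨U, by omega, ?_, ?_⟩
  · have h1 := PRM_sum U hU9
    have h2 : (2 * (n : ℝ)) < (U : ℝ) ^ 3 / (200 * Real.log U) := by
      rw [lt_div_iff₀ (by positivity)]
      have h3 : Real.log U ≤ (2 * K + 2) * Real.log n := by
        have h4 : (U : ℝ) ≤ (2 * K) * ((n : ℝ) * (n : ℝ)) := by
          have h5 : t ≤ t ^ 3 := by nlinarith [mul_nonneg (by linarith : (0 : ℝ) ≤ t) (by nlinarith : (0 : ℝ) ≤ t ^ 2 - 1)]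
          have h6 : Real.log n ≤ n := by
            have := Real.log_le_sub_one_of_pos hn0
            linarith
          have h7 : t ≤ (n : ℝ) * n := by
            rw [ht3] at h5
            nlinarith
          nlinarith
        have h8 : Real.log U ≤ Real.log ((2 * K) * ((n : ℝ) * (n : ℝ))) := Real.log_le_log hU0 h4
        rw [Real.log_mul (by positivity) (by positivity), Real.log_mul hn0.ne' hn0.ne'] at h8
        have h9 : Real.log (2 * K) ≤ 2 * K := by
          have := Real.log_le_sub_one_of_pos (x := 2 * K) (by positivity)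
          linarith
        nlinarith
      have h4 : K ^ 3 * ((n : ℝ) * Real.log n) ≤ (U : ℝ) ^ 3 := by
        rw [← ht3, ← mul_pow]
        exact pow_le_pow_left₀ (by positivity) hUge 3
      have h5 : 2 * (n : ℝ) * (200 * Real.log U) ≤ 400 * (2 * K + 2) * ((n : ℝ) * Real.log n) := by
        nlinarith
      have h6 : 400 * (2 * K + 2) * ((n : ℝ) * Real.log n) < K ^ 3 * ((n : ℝ) * Real.log n) := by
        apply mul_lt_mul_of_pos_right _ (by linarith)
        rw [hK]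
        norm_num
      linarith
    exact_mod_cast h2.trans_le h1
  · nlinarith

end Pool.Agent.RG
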