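import Pool.Agent.helper93.RG.Spec

set_option autoImplicit false

namespace Pool.Agent.RG

open Finset

private theorem TOT_aux (S : Finset ℕ) (hS : ∀ p ∈ S, 2 ≤ p) :
    ∏ p ∈ S, p ≤ (#S + 1) * ∏ p ∈ S, (p - 1) := by
  induction S using Finset.induction_on_max with
  | empty => simp
  | insert a S ha ih =>
    have hna : a ∉ S := fun h => lt_irrefl a (ha a h)
    have ih' := ih fun p hp => hS p (Finset.mem_insert_of_mem hp)
    have hcard : #S + 2 ≤ a := by
      have h1 : S ⊆ Ico 2 a := fun p hp =>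
        Finset.mem_Ico.2 ⟨hS p (Finset.mem_insert_of_mem hp), ha p hp⟩
      have h2 := Finset.card_le_card h1
      rw [Nat.card_Ico] at h2
      have h3 := hS a (Finset.mem_insert_self a S)
      omega
    rw [Finset.prod_insert hna, Finset.prod_insert hna, Finset.card_insert_of_notMem hna]
    obtain ⟨b, rfl⟩ : ∃ b, a = b + 1 := ⟨a - 1, by omega⟩
    rw [Nat.add_sub_cancel]
    set s := #S with hs
    set P := ∏ p ∈ S, p with hP
    set R := ∏ p ∈ S, (p - 1) with hR
    have h4 : (b + 1) * (s + 1) ≤ (s + 1 + 1) * b := by nlinarith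
    calc (b + 1) * P ≤ (b + 1) * ((s + 1) * R) := Nat.mul_le_mul_left _ ih'
      _ = (b + 1) * (s + 1) * R := by ring
      _ ≤ (s + 1 + 1) * b * R := Nat.mul_le_mul_right _ h4
      _ = (s + 1 + 1) * (b * R) := by ring

theorem TOT : TOT_stmt := by
  intro d hd
  have h1 := TOT_aux d.primeFactors fun p hp => (Nat.prime_of_mem_primeFactors hp).two_le
  have h2 := Nat.totient_mul_prod_primeFactors d
  have hR : 0 < ∏ p ∈ d.primeFactors, (p - 1) :=
    Finset.prod_pos fun p hp => by
      have := (Nat.prime_of_mem_primeFactors hp).two_le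
      omega
  have h3 : d ≤ Nat.totient d * (#d.primeFactors + 1) := by
    refine Nat.le_of_mul_le_mul_right ?_ hR
    calc d * ∏ p ∈ d.primeFactors, (p - 1) = Nat.totient d * ∏ p ∈ d.primeFactors, p := h2.symm
      _ ≤ Nat.totient d * ((#d.primeFactors + 1) * ∏ p ∈ d.primeFactors, (p - 1)) :=
        Nat.mul_le_mul_left _ h1
      _ = _ := by ring
  have h4 : 2 ^ #d.primeFactors ≤ d := by
    calc 2 ^ #d.primeFactors = ∏ _p ∈ d.primeFactors, 2 := by rw [Finset.prod_const]
      _ ≤ ∏ p ∈ d.primeFactors, p :=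
        Finset.prod_le_prod' fun p hp => (Nat.prime_of_mem_primeFactors hp).two_le
      _ ≤ d := Nat.le_of_dvd hd (Nat.prod_primeFactors_dvd d)
  have h5 : #d.primeFactors ≤ Nat.log 2 d := Nat.le_log_of_pow_le (by norm_num) h4
  exact h3.trans (Nat.mul_le_mul_left _ (Nat.add_le_add_right h5 1))

end Pool.Agent.RG
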